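import Pool.Agent.UH3.StfC

/-!
# Step of the lower bound, part D: the inhomogeneous problem is solvable for most `q`
-/

set_option autoImplicit false

noncomputable section

open Finset Complex

namespace Pool.Agent.UH3.Stf

/-- The product of the two Fejer kernels. -/
def KK (A B : ℕ) (θ ρ : ℝ) (n : ℤ) : ℝ := K A (n * θ) * K B (n * ρ)

theorem KK_nonneg (A B : ℕ) (θ ρ : ℝ) (n : ℤ) : 0 ≤ KK A B θ ρ n := mul_nonneg (K_nonneg _ _) (K_nonneg _ _)

theorem t_box (A B : ℕ) (θ ρ x0 a0 b0 q : ℝ) (h : ℤ) :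
    ‖t (P A ×ˢ P B) (fun w => q * ((a0 + sg w.1) * θ + (b0 + sg w.2) * ρ) - x0) h‖ =
      K A (h * q * θ) * K B (h * q * ρ) := by
  have h1 : t (P A ×ˢ P B) (fun w => q * ((a0 + sg w.1) * θ + (b0 + sg w.2) * ρ) - x0) h =
      e (h * (q * (a0 * θ + b0 * ρ) - x0)) * ((K A (h * q * θ) : ℂ) * (K B (h * q * ρ) : ℂ)) := by
    rw [K_eq, K_eq, sum_mul_sum, ← sum_product', mul_sum]
    unfold t
    refine sum_congr rfl fun w _ => ?_
    rw [← e_add, ← e_add]
    congr 1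
    ring
  rw [h1, norm_mul, norm_e, one_mul, norm_mul, Complex.norm_real, Complex.norm_real, Real.norm_eq_abs,
    Real.norm_eq_abs, abs_of_nonneg (K_nonneg _ _), abs_of_nonneg (K_nonneg _ _)]

theorem t_lin (A B : ℕ) (θ ρ : ℝ) (n : ℤ) :
    ‖t (range A ×ˢ range B) (fun u => (u.1 : ℝ) * θ + u.2 * ρ) n‖ ^ 2 = KK A B θ ρ n := by
  have h1 : t (range A ×ˢ range B) (fun u => (u.1 : ℝ) * θ + u.2 * ρ) n = S A (n * θ) * S B (n * ρ) := by
    unfold t S
    rw [sum_mul_sum, ← sum_product']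
    refine sum_congr rfl fun w _ => ?_
    rw [← e_add]
    congr 1
    ring
  rw [h1, norm_mul, mul_pow]
  rfl

/-- For most `q` there are integers `a`, `b` in given intervals with `q (a θ + b ρ)` close to `x0` modulo one, if the
numbers `k θ + l ρ` are not close to integers. -/
theorem stf (θ ρ x0 : ℝ) (a0 b0 : ℤ) {A B : ℕ} (hA : 0 < A) (hB : 0 < B) {η σ : ℝ} (hη : 0 < η) (hσ : 0 < σ)
    (hres : ∀ k l m : ℤ, (k ≠ 0 ∨ l ≠ 0) → |k| < A → |l| < B → σ ≤ |k * θ + l * ρ - m|)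
    {Q H M D : ℕ} (T : Finset ℕ) (hQ : ∀ q ∈ T, 0 < q ∧ q ≤ Q)
    (hD : ∀ n : ℕ, 0 < n → n < 2 * H * Q → (T.filter (· ∣ n)).card ≤ D)
    (hH : 1 ≤ η * H) (hM : 4 * H * Q ≤ M) (hM' : 1 ≤ σ * M)
    (hbad : ∀ q ∈ T, ∀ a b p : ℤ, |a - a0| < A → |b - b0| < B → η ≤ |q * (a * θ + b * ρ) - x0 - p|) :
    (T.card : ℝ) * (A * B) ≤ 112 * D * M := by
  have hA' : (0 : ℝ) < A := by exact_mod_cast hA
  have hB' : (0 : ℝ) < B := by exact_mod_cast hB
  -- every `q`
  have h1 : ∀ q ∈ T, ((A : ℝ) ^ 2 * B ^ 2) ≤ 7 * ∑ h ∈ Ico 1 (2 * H), KK A B θ ρ ((h * q : ℕ) : ℤ) := by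
    intro q hq
    have h2 := avoid (P A ×ˢ P B) (fun w => (q : ℝ) * (((a0 : ℝ) + sg w.1) * θ + ((b0 : ℝ) + sg w.2) * ρ) - x0)
      hη hH (by
        intro w hw m
        rw [mem_product] at hw
        have ha := sg_bound hw.1
        have hb := sg_bound hw.2
        have h3 := hbad q hq (a0 + sg w.1) (b0 + sg w.2) m
          (by rw [add_sub_cancel_left, abs_lt]; exact ⟨ha.1, ha.2⟩)
          (by rw [add_sub_cancel_left, abs_lt]; exact ⟨hb.1, hb.2⟩)
        push_cast at h3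
        exact h3)
    rw [card_product, card_P, card_P] at h2
    have h3 : ∀ h ∈ Ico 1 (2 * H), ‖t (P A ×ˢ P B)
        (fun w => (q : ℝ) * (((a0 : ℝ) + sg w.1) * θ + ((b0 : ℝ) + sg w.2) * ρ) - x0) (h : ℤ)‖ =
        KK A B θ ρ ((h * q : ℕ) : ℤ) := by
      intro h _
      rw [t_box]
      unfold KK
      push_cast
      rfl
    rw [sum_congr rfl h3] at h2
    push_cast at h2
    have h4 : (A : ℝ) ^ 2 * B ^ 2 = A * A * (B * B) := by ring
    rw [h4]
    push_cast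
    exact h2
  -- sum over `q`
  have h2 : (T.card : ℝ) * ((A : ℝ) ^ 2 * B ^ 2) ≤
      7 * ∑ w ∈ T ×ˢ Ico 1 (2 * H), KK A B θ ρ ((w.2 * w.1 : ℕ) : ℤ) := by
    rw [← nsmul_eq_mul, ← sum_const, sum_product, mul_sum]
    exact sum_le_sum h1
  have h3 : ∑ w ∈ T ×ˢ Ico 1 (2 * H), KK A B θ ρ ((w.2 * w.1 : ℕ) : ℤ) ≤
      D * ∑ n ∈ (Ico 1 (2 * H * Q)).image (fun n : ℕ => (n : ℤ)), KK A B θ ρ n := by
    refine sum_fib (T ×ˢ Ico 1 (2 * H)) ((Ico 1 (2 * H * Q)).image (fun n : ℕ => (n : ℤ)))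
      (fun w : ℕ × ℕ => ((w.2 * w.1 : ℕ) : ℤ)) D (fun n => KK A B θ ρ n) ?_ ?_ (KK_nonneg A B θ ρ)
    · intro w hw
      rw [mem_product, mem_Ico] at hw
      have hq := hQ _ hw.1
      rw [mem_image]
      refine ⟨w.2 * w.1, ?_, rfl⟩
      rw [mem_Ico]
      refine ⟨Nat.mul_pos hw.2.1 hq.1, ?_⟩
      calc w.2 * w.1 ≤ w.2 * Q := Nat.mul_le_mul_left _ hq.2
        _ < 2 * H * Q := Nat.mul_lt_mul_of_pos_right hw.2.2 (lt_of_lt_of_le hq.1 hq.2)
    · intro n hn
      rw [mem_image] at hn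
      obtain ⟨n, hn, rfl⟩ := hn
      rw [mem_Ico] at hn
      refine le_trans ?_ (hD n (by omega) hn.2)
      have h4 : (((T ×ˢ Ico 1 (2 * H)).filter fun w => ((w.2 * w.1 : ℕ) : ℤ) = (n : ℤ)).image Prod.fst).card =
          ((T ×ˢ Ico 1 (2 * H)).filter fun w => ((w.2 * w.1 : ℕ) : ℤ) = (n : ℤ)).card := by
        apply card_image_of_injOn
        intro w hw w' hw' hww
        rw [mem_coe, mem_filter, mem_product] at hw hw'
        have h5 : w.2 * w.1 = n := by exact_mod_cast hw.2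
        have h6 : w'.2 * w'.1 = n := by exact_mod_cast hw'.2
        have h7 : w.1 = w'.1 := hww
        have h8 := (hQ _ hw.1.1).1
        rw [← h7] at h6
        exact Prod.ext h7 (Nat.eq_of_mul_eq_mul_right h8 (h5.trans h6.symm))
      rw [← h4]
      refine card_le_card fun q hq => ?_
      rw [mem_image] at hq
      obtain ⟨w, hw, rfl⟩ := hq
      rw [mem_filter, mem_product] at hw
      have h5 : w.2 * w.1 = n := by exact_mod_cast hw.2
      rw [mem_filter]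
      exact ⟨hw.1.1, ⟨w.2, by rw [← h5, mul_comm]⟩⟩
  rw [sum_image (fun a _ b _ hab => by exact_mod_cast hab)] at h3
  -- the large sieve
  have h4 : ∑ n ∈ Ico 1 (2 * H * Q), KK A B θ ρ (n : ℤ) ≤ 16 * (A * B) * M := by
    rcases Nat.eq_zero_or_pos (2 * H * Q) with h0 | h0
    · rw [h0, Ico_eq_empty (by omega), sum_empty]
      positivity
    have h5 := sieve (range A ×ˢ range B) (fun u => (u.1 : ℝ) * θ + u.2 * ρ) hσ (by
        intro u hu v hv huv m
        rw [mem_product, mem_range, mem_range] at hu hv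
        have h6 := hres ((u.1 : ℤ) - v.1) ((u.2 : ℤ) - v.2) m (by
          by_contra hc
          push Not at hc
          exact huv (Prod.ext (by omega) (by omega)))
          (by rw [abs_lt]; constructor <;> omega) (by rw [abs_lt]; constructor <;> omega)
        have h7 : (u.1 : ℝ) * θ + u.2 * ρ - (v.1 * θ + v.2 * ρ) - m =
            (((u.1 : ℤ) - v.1 : ℤ) : ℝ) * θ + (((u.2 : ℤ) - v.2 : ℤ) : ℝ) * ρ - m := by
          push_cast
          ring
        rw [h7]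
        exact h6) (L := 2 * H * Q - 1) (M := M) (by
          have : 4 * H * Q = 2 * (2 * H * Q) := by ring
          omega) hM'
    rw [card_product, card_range, card_range, Nat.sub_add_cancel h0] at h5
    push_cast at h5
    refine le_trans (le_of_eq ?_) h5
    exact sum_congr rfl fun n _ => (t_lin A B θ ρ n).symm
  have h5 : (T.card : ℝ) * ((A : ℝ) ^ 2 * B ^ 2) ≤ 7 * (D * (16 * (A * B) * M)) := by
    refine h2.trans (mul_le_mul_of_nonneg_left (h3.trans ?_) (by norm_num))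
    exact mul_le_mul_of_nonneg_left h4 (Nat.cast_nonneg _)
  have h6 : ((T.card : ℝ) * (A * B)) * (A * B) ≤ 112 * D * M * (A * B) := by
    refine le_trans (le_of_eq ?_) (h5.trans (le_of_eq ?_)) <;> ring
  exact le_of_mul_le_mul_right h6 (by positivity)

end Pool.Agent.UH3.Stf
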