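import Mathlib

/-!
# Step of the lower bound, part A: exponential sums which avoid a neighbourhood of zero

For finitely many reals `x i` whose distance to the nearest integer is at least `η`, the number of the `x i` is bounded
by the sum of the first `2 H` exponential sums, `H ≥ 1 / η`.
-/

set_option autoImplicit false

noncomputable section

open Finset Complex

namespace Pool.Agent.UH3.Stf

/-- `e x = exp (2 π i x)`. -/
def e (x : ℝ) : ℂ := Complex.exp ((2 * Real.pi * x : ℝ) * Complex.I)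

theorem e_add (x y : ℝ) : e (x + y) = e x * e y := by
  unfold e
  rw [← Complex.exp_add]
  congr 1
  push_cast
  ring

theorem e_zero : e 0 = 1 := by
  unfold e
  simp

theorem norm_e (x : ℝ) : ‖e x‖ = 1 := by
  unfold e
  exact Complex.norm_exp_ofReal_mul_I _

theorem e_ne (x : ℝ) : e x ≠ 0 := by
  unfold e
  exact Complex.exp_ne_zero _

theorem e_neg (x : ℝ) : e (-x) = (starRingEnd ℂ) (e x) := by
  unfold e
  rw [← Complex.exp_conj, map_mul, Complex.conj_ofReal, Complex.conj_I]
  congr 1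
  push_cast
  ring

theorem e_re (x : ℝ) : (e x).re = Real.cos (2 * Real.pi * x) := by
  unfold e
  exact Complex.exp_ofReal_mul_I_re _

theorem e_nat_mul (n : ℕ) (x : ℝ) : e (n * x) = e x ^ n := by
  induction n with
  | zero => simp [e_zero]
  | succ n ih =>
    rw [pow_succ, ← ih, ← e_add]
    congr 1
    push_cast
    ring

/-- The sum of `e (j x)`, `j < N`. -/
def S (N : ℕ) (x : ℝ) : ℂ := ∑ j ∈ range N, e (j * x)

/-- The (unnormalised) Fejer kernel. -/
def K (N : ℕ) (x : ℝ) : ℝ := ‖S N x‖ ^ 2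

theorem K_nonneg (N : ℕ) (x : ℝ) : 0 ≤ K N x := sq_nonneg _

theorem S_mul (N : ℕ) (x : ℝ) : S N x * (e x - 1) = e (N * x) - 1 := by
  unfold S
  have h : ∑ j ∈ range N, e (j * x) = ∑ j ∈ range N, e x ^ j :=
    sum_congr rfl fun j _ => e_nat_mul j x
  rw [h, geom_sum_mul, ← e_nat_mul]

theorem norm_e_sub_one (x : ℝ) : ‖e x - 1‖ ^ 2 = 2 * (1 - Real.cos (2 * Real.pi * x)) := by
  have h1 : ‖e x‖ ^ 2 = 1 := by rw [norm_e]; norm_num
  rw [← Complex.normSq_eq_norm_sq] at h1 ⊢
  rw [Complex.normSq_apply] at h1 ⊢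
  rw [Complex.sub_re, Complex.sub_im, Complex.one_re, Complex.one_im, e_re] at *
  nlinarith [h1]

theorem K_mul (N : ℕ) (x : ℝ) :
    K N x * (1 - Real.cos (2 * Real.pi * x)) = 1 - Real.cos (2 * Real.pi * (N * x)) := by
  have h := congrArg (fun z : ℂ => ‖z‖ ^ 2) (S_mul N x)
  simp only [norm_mul, mul_pow] at h
  rw [norm_e_sub_one, norm_e_sub_one] at h
  unfold K
  linarith

/-- The cosine at distance at least `d` from the integers. -/
theorem one_sub_cos {x d : ℝ} (hd : 0 ≤ d) (h : ∀ m : ℤ, d ≤ |x - m|) :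
    8 * d ^ 2 ≤ 1 - Real.cos (2 * Real.pi * x) ∧
      Real.cos (2 * Real.pi * x) ≤ Real.cos (2 * Real.pi * d) := by
  have hr := abs_sub_round x
  have hd1 := h (round x)
  set y := x - round x with hy
  have hc : Real.cos (2 * Real.pi * x) = Real.cos (2 * Real.pi * |y|) := by
    have h1 : 2 * Real.pi * x = 2 * Real.pi * y + (round x : ℤ) * (2 * Real.pi) := by
      rw [hy]; ring
    rw [h1, Real.cos_add_int_mul_two_pi]
    rcases abs_cases y with hh | hh
    · rw [hh.1]
    · rw [hh.1]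
      rw [show 2 * Real.pi * -y = -(2 * Real.pi * y) by ring, Real.cos_neg]
  have hpi := Real.pi_pos
  refine ⟨?_, ?_⟩
  · rw [hc]
    have hs := Real.mul_le_sin (x := Real.pi * |y|) (by positivity) (by nlinarith)
    have hs2 : 2 / Real.pi * (Real.pi * |y|) = 2 * |y| := by
      field_simp
    rw [hs2] at hs
    have h2 : Real.cos (2 * Real.pi * |y|) = 1 - 2 * Real.sin (Real.pi * |y|) ^ 2 := by
      rw [show 2 * Real.pi * |y| = 2 * (Real.pi * |y|) by ring, Real.cos_two_mul]
      have := Real.sin_sq_add_cos_sq (Real.pi * |y|)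
      linarith
    rw [h2]
    have h3 : d ^ 2 ≤ |y| ^ 2 := pow_le_pow_left₀ hd hd1 2
    have h4 : (2 * |y|) ^ 2 ≤ Real.sin (Real.pi * |y|) ^ 2 :=
      pow_le_pow_left₀ (by positivity) hs 2
    nlinarith
  · rw [hc]
    apply Real.cos_le_cos_of_nonneg_of_le_pi
    · positivity
    · nlinarith
    · nlinarith

theorem K_le {N : ℕ} {x d : ℝ} (hd : 0 < d) (h : ∀ m : ℤ, d ≤ |x - m|) :
    K N x ≤ 1 / (4 * d ^ 2) := by
  have h1 := (one_sub_cos hd.le h).1
  have h2 := K_mul N x
  have h3 : 1 - Real.cos (2 * Real.pi * (N * x)) ≤ 2 := by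
    linarith [Real.neg_one_le_cos (2 * Real.pi * (N * x))]
  have h4 : K N x * (8 * d ^ 2) ≤ 2 := by
    have := mul_le_mul_of_nonneg_left h1 (K_nonneg N x)
    linarith
  rw [le_div_iff₀ (by positivity)]
  nlinarith

/-- The difference of a pair. -/
def sg (p : ℕ × ℕ) : ℤ := (p.1 : ℤ) - p.2

/-- The pairs of numbers `< N`. -/
def P (N : ℕ) : Finset (ℕ × ℕ) := range N ×ˢ range N

theorem K_eq (N : ℕ) (x : ℝ) : (K N x : ℂ) = ∑ p ∈ P N, e (sg p * x) := by
  unfold K P
  rw [sum_product]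
  have h : (((‖S N x‖ ^ 2 : ℝ)) : ℂ) = S N x * (starRingEnd ℂ) (S N x) := by
    rw [Complex.mul_conj, Complex.normSq_eq_norm_sq]
  rw [h]
  unfold S
  rw [map_sum, sum_mul_sum]
  refine sum_congr rfl fun i _ => sum_congr rfl fun j _ => ?_
  rw [← e_neg, ← e_add]
  congr 1
  unfold sg
  push_cast
  ring

theorem K_eq' (N : ℕ) (x : ℝ) : (K N x : ℂ) = ∑ p ∈ P N, e (-(sg p : ℝ) * x) := by
  have h := congrArg (starRingEnd ℂ) (K_eq N x)
  rw [Complex.conj_ofReal, map_sum] at h
  rw [h]
  refine sum_congr rfl fun p _ => ?_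
  rw [← e_neg]
  congr 1
  ring

theorem K_zero (N : ℕ) : K N 0 = (N : ℝ) ^ 2 := by
  unfold K S
  simp [e_zero]

/-- Sums over sets whose fibres are small. -/
theorem sum_fib {W : Type*} [DecidableEq W] (A : Finset W) (I : Finset ℤ) (f : W → ℤ) (C : ℕ) (τ : ℤ → ℝ)
    (hI : ∀ w ∈ A, f w ∈ I) (hC : ∀ h ∈ I, (A.filter fun w => f w = h).card ≤ C) (hτ : ∀ h, 0 ≤ τ h) :
    ∑ w ∈ A, τ (f w) ≤ C * ∑ h ∈ I, τ h := by
  rw [← sum_fiberwise_of_maps_to hI, mul_sum]
  refine sum_le_sum fun h hh => ?_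
  have h1 : ∑ w ∈ A.filter (fun w => f w = h), τ (f w) =
      ((A.filter fun w => f w = h).card : ℝ) * τ h := by
    rw [← nsmul_eq_mul, ← sum_const]
    refine sum_congr rfl fun w hw => ?_
    rw [(mem_filter.1 hw).2]
  rw [h1]
  exact mul_le_mul_of_nonneg_right (by exact_mod_cast hC h hh) (hτ h)

theorem sg_bound {N : ℕ} {p : ℕ × ℕ} (hp : p ∈ P N) : -(N : ℤ) < sg p ∧ sg p < N := by
  unfold P at hp
  rw [mem_product, mem_range, mem_range] at hp
  unfold sg
  constructor <;> omega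

theorem card_P (N : ℕ) : (P N).card = N * N := by
  unfold P
  rw [card_product, card_range]

theorem fib_le (N : ℕ) (A : Finset (ℕ × ℕ)) (hA : A ⊆ P N) (h : ℤ) :
    (A.filter fun p => sg p = h).card ≤ N := by
  have h1 : ((A.filter fun p => sg p = h).image Prod.fst).card = (A.filter fun p => sg p = h).card := by
    apply card_image_of_injOn
    intro p hp p' hp' hpp
    rw [mem_coe, mem_filter] at hp hp'
    have h2 := hp.2
    have h3 := hp'.2
    unfold sg at h2 h3
    have h4 : p.1 = p'.1 := hpp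
    exact Prod.ext h4 (by omega)
  rw [← h1]
  calc ((A.filter fun p => sg p = h).image Prod.fst).card ≤ (range N).card := by
        apply card_le_card
        intro i hi
        rw [mem_image] at hi
        obtain ⟨p, hp, rfl⟩ := hi
        have hp' := hA (mem_filter.1 hp).1
        unfold P at hp'
        exact (mem_product.1 hp').1
    _ = N := card_range N

end Pool.Agent.UH3.Stf
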