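import Pool.Agent.UH3.StfA

/-!
# Step of the lower bound, part B: the number of reals which avoid a neighbourhood of zero
-/

set_option autoImplicit false

noncomputable section

open Finset Complex

namespace Pool.Agent.UH3.Stf

variable {ι : Type*}

/-- The exponential sum of a family of reals. -/
def t (s : Finset ι) (x : ι → ℝ) (h : ℤ) : ℂ := ∑ i ∈ s, e (h * x i)

theorem t_zero (s : Finset ι) (x : ι → ℝ) : t s x 0 = s.card := by
  unfold t
  simp [e_zero]

theorem norm_t_neg (s : Finset ι) (x : ι → ℝ) (h : ℤ) : ‖t s x (-h)‖ = ‖t s x h‖ := by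
  have h1 : t s x (-h) = (starRingEnd ℂ) (t s x h) := by
    unfold t
    rw [map_sum]
    refine sum_congr rfl fun i _ => ?_
    rw [← e_neg]
    congr 1
    push_cast
    ring
  rw [h1, Complex.norm_conj]

/-- The frequencies. -/
def I (H : ℕ) : Finset ℤ := (Icc (-(2 * (H : ℤ) - 1)) (2 * H - 1)).erase 0

theorem mem_I {H : ℕ} {h : ℤ} : h ∈ I H ↔ h ≠ 0 ∧ -(2 * (H : ℤ) - 1) ≤ h ∧ h ≤ 2 * H - 1 := by
  unfold I
  rw [mem_erase, mem_Icc]

/-- The sum over the frequencies. -/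
def E (s : Finset ι) (x : ι → ℝ) (H : ℕ) : ℝ := ∑ h ∈ I H, ‖t s x h‖

theorem E_nonneg (s : Finset ι) (x : ι → ℝ) (H : ℕ) : 0 ≤ E s x H := sum_nonneg fun _ _ => norm_nonneg _

theorem E_eq (s : Finset ι) (x : ι → ℝ) (H : ℕ) :
    E s x H ≤ 2 * ∑ h ∈ Ico 1 (2 * H), ‖t s x (h : ℤ)‖ := by
  unfold E
  have hsub : I H ⊆ (Ico 1 (2 * H)).image (fun n : ℕ => (n : ℤ)) ∪
      (Ico 1 (2 * H)).image (fun n : ℕ => -(n : ℤ)) := by
    intro h hh
    rw [mem_I] at hh
    rw [mem_union, mem_image, mem_image]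
    rcases lt_or_gt_of_ne hh.1 with h1 | h1
    · right
      refine ⟨h.natAbs, ?_, ?_⟩
      · rw [mem_Ico]; omega
      · omega
    · left
      refine ⟨h.natAbs, ?_, ?_⟩
      · rw [mem_Ico]; omega
      · omega
  calc ∑ h ∈ I H, ‖t s x h‖ ≤ ∑ h ∈ (Ico 1 (2 * H)).image (fun n : ℕ => (n : ℤ)) ∪
      (Ico 1 (2 * H)).image (fun n : ℕ => -(n : ℤ)), ‖t s x h‖ :=
        sum_le_sum_of_subset_of_nonneg hsub fun _ _ _ => norm_nonneg _
    _ ≤ ∑ h ∈ (Ico 1 (2 * H)).image (fun n : ℕ => (n : ℤ)), ‖t s x h‖ +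
        ∑ h ∈ (Ico 1 (2 * H)).image (fun n : ℕ => -(n : ℤ)), ‖t s x h‖ := by
        rw [← sum_union_inter]
        have : 0 ≤ ∑ h ∈ (Ico 1 (2 * H)).image (fun n : ℕ => (n : ℤ)) ∩
          (Ico 1 (2 * H)).image (fun n : ℕ => -(n : ℤ)), ‖t s x h‖ := sum_nonneg fun _ _ => norm_nonneg _
        linarith
    _ = ∑ h ∈ Ico 1 (2 * H), ‖t s x (h : ℤ)‖ + ∑ h ∈ Ico 1 (2 * H), ‖t s x (h : ℤ)‖ := by
        rw [sum_image, sum_image]
        · congr 1
          exact sum_congr rfl fun h _ => norm_t_neg s x h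
        · intro a _ b _ hab
          have : -(a : ℤ) = -(b : ℤ) := hab
          omega
        · intro a _ b _ hab
          exact Int.ofNat.inj hab
    _ = _ := by ring

theorem fib_pair (H : ℕ) (h : ℤ) :
    ((P H ×ˢ P H).filter fun w => sg w.1 - sg w.2 = h).card ≤ H ^ 3 := by
  rw [card_filter, sum_product]
  calc ∑ p ∈ P H, ∑ p' ∈ P H, (if sg p - sg p' = h then 1 else 0) ≤ ∑ p ∈ P H, H := by
        refine sum_le_sum fun p _ => ?_
        rw [← card_filter]
        refine le_trans (card_le_card ?_) (fib_le H (P H) (Subset.refl _) (sg p - h))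
        intro p' hp'
        rw [mem_filter] at hp' ⊢
        exact ⟨hp'.1, by omega⟩
    _ = H ^ 3 := by
        rw [sum_const, card_P, smul_eq_mul]
        ring

theorem zero_pair (H : ℕ) : (H : ℝ) ^ 3 / 2 ≤
    (((P H ×ˢ P H).filter fun w => sg w.1 - sg w.2 = 0).card : ℝ) := by
  rcases Nat.eq_zero_or_pos H with h0 | h0
  · subst h0
    simp
  let J : Finset ℤ := Icc (-((H : ℤ) - 1)) (H - 1)
  let r : ℤ → ℕ := fun m => ((P H).filter fun p => sg p = m).card
  have hmaps : ∀ p ∈ P H, sg p ∈ J := by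
    intro p hp
    have := sg_bound hp
    rw [mem_Icc]
    constructor <;> omega
  have h1 : ((P H ×ˢ P H).filter fun w => sg w.1 - sg w.2 = 0).card = ∑ m ∈ J, r m ^ 2 := by
    rw [card_filter, sum_product]
    have h2 : ∀ p ∈ P H, ∑ p' ∈ P H, (if sg p - sg p' = 0 then 1 else 0) = r (sg p) := by
      intro p _
      rw [← card_filter]
      show _ = ((P H).filter fun p' => sg p' = sg p).card
      congr 1
      ext p'
      rw [mem_filter, mem_filter]
      constructor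
      · rintro ⟨a, b⟩; exact ⟨a, by omega⟩
      · rintro ⟨a, b⟩; exact ⟨a, by omega⟩
    rw [sum_congr rfl h2, ← sum_fiberwise_of_maps_to hmaps]
    refine sum_congr rfl fun m _ => ?_
    have h3 : ∑ p ∈ (P H).filter (fun p => sg p = m), r (sg p) =
        ∑ p ∈ (P H).filter (fun p => sg p = m), r m := by
      refine sum_congr rfl fun p hp => ?_
      rw [(mem_filter.1 hp).2]
    rw [h3, sum_const, smul_eq_mul]
    show r m * r m = _
    ring
  have h4 : ∑ m ∈ J, r m = H * H := by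
    rw [← card_P, ← card_eq_sum_card_fiberwise hmaps]
  have hcard : (J.card : ℝ) ≤ 2 * H := by
    have : J.card ≤ 2 * H := by
      rw [Int.card_Icc]
      omega
    exact_mod_cast this
  have h5 := sq_sum_le_card_mul_sum_sq (s := J) (f := fun m => (r m : ℝ))
  have h6 : ∑ m ∈ J, (r m : ℝ) = (H : ℝ) * H := by exact_mod_cast h4
  rw [h6] at h5
  have h7 : (((P H ×ˢ P H).filter fun w => sg w.1 - sg w.2 = 0).card : ℝ) =
      ∑ m ∈ J, (r m : ℝ) ^ 2 := by
    rw [h1]
    push_cast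
    rfl
  rw [h7]
  have hH : (0 : ℝ) < H := by exact_mod_cast h0
  have hsum : 0 ≤ ∑ m ∈ J, (r m : ℝ) ^ 2 := sum_nonneg fun _ _ => sq_nonneg _
  have h8 : ((H : ℝ) * H) ^ 2 ≤ 2 * H * ∑ m ∈ J, (r m : ℝ) ^ 2 :=
    h5.trans (mul_le_mul_of_nonneg_right hcard hsum)
  have h9 : (H : ℝ) * ((H : ℝ) ^ 3 / 2) ≤ H * ∑ m ∈ J, (r m : ℝ) ^ 2 := by nlinarith
  exact le_of_mul_le_mul_left h9 hH

theorem U2 (s : Finset ι) (x : ι → ℝ) (H : ℕ) :
    (H : ℝ) ^ 3 / 2 * s.card - (H : ℝ) ^ 3 * E s x H ≤ ∑ i ∈ s, K H (x i) ^ 2 := by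
  have h1 : ((∑ i ∈ s, K H (x i) ^ 2 : ℝ) : ℂ) =
      ∑ w ∈ P H ×ˢ P H, t s x (sg w.1 - sg w.2) := by
    push_cast
    unfold t
    rw [sum_comm]
    refine sum_congr rfl fun i _ => ?_
    rw [sq]
    nth_rewrite 1 [K_eq]
    rw [K_eq', sum_mul_sum, sum_product]
    refine sum_congr rfl fun p _ => sum_congr rfl fun p' _ => ?_
    rw [← e_add]
    congr 1
    push_cast
    ring
  have h2 := congrArg Complex.re h1
  rw [Complex.ofReal_re, Complex.re_sum] at h2
  rw [h2, ← sum_filter_add_sum_filter_not (P H ×ˢ P H) (fun w => sg w.1 - sg w.2 = 0)]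
  have h3 : ∑ w ∈ (P H ×ˢ P H).filter (fun w => sg w.1 - sg w.2 = 0), (t s x (sg w.1 - sg w.2)).re =
      (((P H ×ˢ P H).filter fun w => sg w.1 - sg w.2 = 0).card : ℝ) * s.card := by
    rw [← nsmul_eq_mul, ← sum_const]
    refine sum_congr rfl fun w hw => ?_
    rw [(mem_filter.1 hw).2, t_zero, Complex.natCast_re]
  have h4 : ∑ w ∈ (P H ×ˢ P H).filter (fun w => ¬ sg w.1 - sg w.2 = 0), ‖t s x (sg w.1 - sg w.2)‖ ≤
      ((H ^ 3 : ℕ) : ℝ) * E s x H := by
    unfold E
    refine sum_fib ((P H ×ˢ P H).filter (fun w => ¬ sg w.1 - sg w.2 = 0)) (I H)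
      (fun w : (ℕ × ℕ) × (ℕ × ℕ) => sg w.1 - sg w.2) (H ^ 3) (fun h => ‖t s x h‖) ?_ ?_ fun _ => norm_nonneg _
    · intro w hw
      rw [mem_filter, mem_product] at hw
      have ha := sg_bound hw.1.1
      have hb := sg_bound hw.1.2
      rw [mem_I]
      refine ⟨hw.2, ?_, ?_⟩ <;> omega
    · intro h _
      refine le_trans (card_le_card ?_) (fib_pair H h)
      intro w hw
      rw [mem_filter] at hw ⊢
      exact ⟨(mem_filter.1 hw.1).1, hw.2⟩
  have h5 : -∑ w ∈ (P H ×ˢ P H).filter (fun w => ¬ sg w.1 - sg w.2 = 0), ‖t s x (sg w.1 - sg w.2)‖ ≤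
      ∑ w ∈ (P H ×ˢ P H).filter (fun w => ¬ sg w.1 - sg w.2 = 0), (t s x (sg w.1 - sg w.2)).re := by
    rw [← sum_neg_distrib]
    refine sum_le_sum fun w _ => ?_
    exact (abs_le.1 (Complex.abs_re_le_norm _)).1
  have h6 := mul_le_mul_of_nonneg_right (zero_pair H) (Nat.cast_nonneg (α := ℝ) s.card)
  push_cast at h4
  rw [h3]
  linarith

theorem U1 (s : Finset ι) (x : ι → ℝ) (H : ℕ) :
    ∑ i ∈ s, K H (x i) * (1 - Real.cos (2 * Real.pi * (H * x i))) ≤
      H * s.card + 2 * H * E s x H := by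
  classical
  have h1 : ((∑ i ∈ s, K H (x i) : ℝ) : ℂ) = ∑ p ∈ P H, t s x (sg p) := by
    push_cast
    unfold t
    rw [sum_comm]
    exact sum_congr rfl fun i _ => K_eq H (x i)
  have h1' := congrArg Complex.re h1
  rw [Complex.ofReal_re, Complex.re_sum] at h1'
  have h2 : ∑ i ∈ s, K H (x i) * Real.cos (2 * Real.pi * (H * x i)) =
      ∑ p ∈ P H, (t s x (sg p + H)).re := by
    have h3 : ∀ i ∈ s, K H (x i) * Real.cos (2 * Real.pi * (H * x i)) =
        (∑ p ∈ P H, e ((sg p + H : ℤ) * x i)).re := by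
      intro i _
      rw [← e_re]
      have h4 : (K H (x i) * (e (H * x i)).re) = ((K H (x i) : ℂ) * e (H * x i)).re := by
        rw [Complex.re_ofReal_mul]
      rw [h4, K_eq, sum_mul]
      congr 1
      refine sum_congr rfl fun p _ => ?_
      rw [← e_add]
      congr 1
      push_cast
      ring
    rw [sum_congr rfl h3, ← Complex.re_sum, ← Complex.re_sum]
    congr 1
    unfold t
    rw [sum_comm]
  have h5 : ∑ i ∈ s, K H (x i) * (1 - Real.cos (2 * Real.pi * (H * x i))) =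
      ∑ p ∈ P H, (t s x (sg p)).re - ∑ p ∈ P H, (t s x (sg p + H)).re := by
    rw [← h1', ← h2, ← sum_sub_distrib]
    exact sum_congr rfl fun i _ => by ring
  rw [h5, ← sum_filter_add_sum_filter_not (P H) (fun p => sg p = 0) (fun p => (t s x (sg p)).re)]
  have h6 : ∑ p ∈ (P H).filter (fun p => sg p = 0), (t s x (sg p)).re ≤ H * s.card := by
    have h7 : ∑ p ∈ (P H).filter (fun p => sg p = 0), (t s x (sg p)).re =
        (((P H).filter fun p => sg p = 0).card : ℝ) * s.card := by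
      rw [← nsmul_eq_mul, ← sum_const]
      refine sum_congr rfl fun w hw => ?_
      rw [(mem_filter.1 hw).2, t_zero, Complex.natCast_re]
    rw [h7]
    exact mul_le_mul_of_nonneg_right (by exact_mod_cast fib_le H (P H) (Subset.refl _) 0)
      (Nat.cast_nonneg _)
  have h8 : ∑ p ∈ (P H).filter (fun p => ¬ sg p = 0), (t s x (sg p)).re ≤ H * E s x H := by
    refine le_trans (sum_le_sum fun p _ => Complex.re_le_norm _) ?_
    unfold E
    refine sum_fib _ (I H) (fun w => sg w) H (fun h => ‖t s x h‖) ?_ ?_ fun _ => norm_nonneg _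
    · intro w hw
      rw [mem_filter] at hw
      have ha := sg_bound hw.1
      rw [mem_I]
      refine ⟨hw.2, ?_, ?_⟩ <;> omega
    · intro h _
      exact fib_le H _ (filter_subset _ _) h
  have h9 : -∑ p ∈ P H, (t s x (sg p + H)).re ≤ H * E s x H := by
    rw [← sum_neg_distrib]
    refine le_trans (sum_le_sum (g := fun p => ‖t s x (sg p + H)‖) fun p _ => ?_) ?_
    · have := (abs_le.1 (Complex.abs_re_le_norm (t s x (sg p + H)))).1
      linarith
    · unfold E
      refine sum_fib _ (I H) (fun w => sg w + H) H (fun h => ‖t s x h‖) ?_ ?_ fun _ => norm_nonneg _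
      · intro w hw
        have ha := sg_bound hw
        rw [mem_I]
        refine ⟨?_, ?_, ?_⟩ <;> omega
      · intro h _
        refine le_trans (card_le_card ?_) (fib_le H (P H) (Subset.refl _) (h - H))
        intro p hp
        rw [mem_filter] at hp ⊢
        exact ⟨hp.1, by omega⟩
  linarith

/-- Reals which avoid a neighbourhood of zero: their number is bounded by the exponential sums. -/
theorem avoid (s : Finset ι) (x : ι → ℝ) {η : ℝ} (hη : 0 < η) {H : ℕ} (hH : 1 ≤ η * H)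
    (h : ∀ i ∈ s, ∀ m : ℤ, η ≤ |x i - m|) :
    (s.card : ℝ) ≤ 7 * ∑ h ∈ Ico 1 (2 * H), ‖t s x (h : ℤ)‖ := by
  rcases s.eq_empty_or_nonempty with h0 | h0
  · subst h0
    simp [t]
  obtain ⟨i0, hi0⟩ := h0
  have hHpos : (0 : ℝ) < H := by
    by_contra hc
    have : (H : ℝ) = 0 := le_antisymm (not_lt.1 hc) (Nat.cast_nonneg _)
    rw [this] at hH
    norm_num at hH
  have hHn : 0 < H := by exact_mod_cast hHpos
  have hη2 : η ≤ 1 / 2 := (h i0 hi0 (round (x i0))).trans (abs_sub_round _)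
  set c : ℝ := Real.cos (2 * Real.pi * η) with hc
  have hu : 8 * η ^ 2 ≤ 1 - c := by
    refine (one_sub_cos (x := η) hη.le fun m => ?_).1
    have h1 : round η = 0 ∨ η = 1 / 2 := by
      rcases hη2.lt_or_eq with h2 | h2
      · left
        rw [round_eq_zero_iff]
        constructor <;> linarith
      · right; exact h2
    rcases lt_trichotomy m 0 with hm | hm | hm
    · have : (m : ℝ) ≤ -1 := by exact_mod_cast (by omega : m ≤ -1)
      rw [abs_of_nonneg (by linarith)]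
      linarith
    · subst hm
      simp [abs_of_pos hη]
    · have : (1 : ℝ) ≤ m := by exact_mod_cast (by omega : 1 ≤ m)
      rw [abs_of_nonpos (by linarith)]
      linarith
  have hg : ∑ i ∈ s, ((1 - c) * K H (x i) ^ 2 -
      K H (x i) * (1 - Real.cos (2 * Real.pi * (H * x i)))) ≤ 0 := by
    refine sum_nonpos fun i hi => ?_
    rw [← K_mul]
    have h1 := (one_sub_cos (x := x i) hη.le (h i hi)).2
    have h2 : (1 - c) * K H (x i) ^ 2 - K H (x i) * (K H (x i) * (1 - Real.cos (2 * Real.pi * x i))) =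
        K H (x i) ^ 2 * (Real.cos (2 * Real.pi * x i) - c) := by ring
    rw [h2]
    exact mul_nonpos_of_nonneg_of_nonpos (sq_nonneg _) (by linarith)
  rw [sum_sub_distrib, ← mul_sum] at hg
  have hU1 := U1 s x H
  have hU2 := U2 s x H
  have hE := E_nonneg s x H
  have hc0 : 0 ≤ 1 - c := by nlinarith [sq_nonneg η]
  have h3 := mul_le_mul_of_nonneg_left hU2 hc0
  set N : ℝ := (s.card : ℝ) with hN
  have hNn : 0 ≤ N := Nat.cast_nonneg _
  set u : ℝ := (1 - c) * (H : ℝ) ^ 3 with hudef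
  have h4 : 8 * (H : ℝ) ≤ u := by
    have h5 : 1 ≤ (η * H) ^ 2 := by nlinarith
    have h6 : 8 * (η * H) ^ 2 ≤ (1 - c) * (H : ℝ) ^ 2 := by
      have := mul_le_mul_of_nonneg_right hu (sq_nonneg (H : ℝ))
      nlinarith
    have h7 : 8 ≤ (1 - c) * (H : ℝ) ^ 2 := by linarith
    have h8 := mul_le_mul_of_nonneg_right h7 hHpos.le
    rw [hudef]
    nlinarith
  have h9 : N * (u / 2) - u * E s x H ≤ H * N + 2 * H * E s x H := by
    have : (1 - c) * ((H : ℝ) ^ 3 / 2 * N - (H : ℝ) ^ 3 * E s x H) =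
        N * (u / 2) - u * E s x H := by
      rw [hudef]; ring
    linarith
  have hupos : 0 < u := by linarith
  have h10 : 3 * (u * N) ≤ 10 * (u * E s x H) := by
    nlinarith [mul_le_mul_of_nonneg_right h4 hNn, mul_le_mul_of_nonneg_right h4 hE]
  have h11 : 3 * N ≤ 10 * E s x H := by
    have : u * (3 * N) ≤ u * (10 * E s x H) := by linarith
    exact le_of_mul_le_mul_left this hupos
  have h12 := E_eq s x H
  have hS : 0 ≤ ∑ h ∈ Ico 1 (2 * H), ‖t s x (h : ℤ)‖ := sum_nonneg fun _ _ => norm_nonneg _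
  linarith

end Pool.Agent.UH3.Stf
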