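import Pool.Agent.UH3.StfB

/-!
# Step of the lower bound, part C: separated points and the large sieve
-/

set_option autoImplicit false

noncomputable section

open Finset Complex

namespace Pool.Agent.UH3.Stf

theorem sum_Icc (n : ℕ) : ∑ k ∈ Icc (-(n : ℤ)) n, 1 / ((k : ℝ) ^ 2 + 1) ≤ 5 - 2 / ((n : ℝ) + 1 / 2) := by
  induction n with
  | zero => simp; norm_num
  | succ n ih =>
    have h1 : Icc (-((n + 1 : ℕ) : ℤ)) ((n + 1 : ℕ) : ℤ) =
        insert (-((n : ℤ) + 1)) (insert ((n : ℤ) + 1) (Icc (-(n : ℤ)) n)) := by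
      ext k
      rw [mem_insert, mem_insert, mem_Icc, mem_Icc]
      push_cast
      omega
    have h2 : ((n : ℤ) + 1) ∉ Icc (-(n : ℤ)) n := by
      rw [mem_Icc]; omega
    have h3 : (-((n : ℤ) + 1)) ∉ insert ((n : ℤ) + 1) (Icc (-(n : ℤ)) n) := by
      rw [mem_insert, mem_Icc]; omega
    rw [h1, sum_insert h3, sum_insert h2]
    push_cast
    have hn : (0 : ℝ) ≤ n := Nat.cast_nonneg _
    have h4 : 1 / ((-((n : ℝ) + 1)) ^ 2 + 1) = 1 / (((n : ℝ) + 1) ^ 2 + 1) := by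
      rw [neg_sq]
    rw [h4]
    have h5 : 2 * (1 / (((n : ℝ) + 1) ^ 2 + 1)) ≤ 2 / ((n : ℝ) + 1 / 2) - 2 / ((n : ℝ) + 1 + 1 / 2) := by
      rw [div_sub_div _ _ (by positivity) (by positivity), mul_one_div, div_le_div_iff₀ (by positivity) (by positivity)]
      nlinarith
    linarith

theorem sum_sq (T : Finset ℤ) : ∑ k ∈ T, 1 / ((k : ℝ) ^ 2 + 1) ≤ 5 := by
  obtain ⟨n, hn⟩ : ∃ n : ℕ, T ⊆ Icc (-(n : ℤ)) n := by
    refine ⟨T.sup Int.natAbs, fun k hk => ?_⟩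
    have h1 : k.natAbs ≤ T.sup Int.natAbs := le_sup (f := Int.natAbs) hk
    rw [mem_Icc]
    omega
  have h1 := sum_le_sum_of_subset_of_nonneg (f := fun k : ℤ => 1 / ((k : ℝ) ^ 2 + 1)) hn
    fun _ _ _ => by positivity
  have h2 := sum_Icc n
  have h3 : (0 : ℝ) ≤ 2 / ((n : ℝ) + 1 / 2) := by positivity
  linarith

/-- The signed distance to the nearest integer. -/
def dd (x : ℝ) : ℝ := x - round x

theorem floor_sq {z : ℝ} (hz : 1 ≤ |z|) : ((⌊z⌋ : ℤ) : ℝ) ^ 2 + 1 ≤ 5 * z ^ 2 := by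
  have h1 := Int.floor_le z
  have h2 := Int.lt_floor_add_one z
  rcases le_abs.1 hz with h | h
  · have h3 : (1 : ℝ) ≤ (⌊z⌋ : ℤ) := by
      have : (1 : ℤ) ≤ ⌊z⌋ := Int.le_floor.2 (by exact_mod_cast h)
      exact_mod_cast this
    nlinarith
  · have h3 : ⌊z⌋ ≤ -1 := by
      have : ⌊z⌋ < 0 := Int.floor_lt.2 (by push_cast; linarith)
      omega
    rcases eq_or_lt_of_le h3 with h4 | h4
    · rw [h4]
      push_cast
      nlinarith
    · have h5 : ((⌊z⌋ : ℤ) : ℝ) ≤ -2 := by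
        have : ⌊z⌋ ≤ -2 := by omega
        exact_mod_cast this
      nlinarith

variable {ι : Type*} [DecidableEq ι]

/-- Sum over separated points. -/
theorem sep_sum (U : Finset ι) (y : ι → ℝ) {σ : ℝ} (hσ : 0 < σ)
    (hsep : ∀ u ∈ U, ∀ v ∈ U, u ≠ v → ∀ m : ℤ, σ ≤ |y u - y v - m|) (u : ι) (hu : u ∈ U) :
    ∑ v ∈ U.erase u, 1 / (dd (y v - y u)) ^ 2 ≤ 25 / σ ^ 2 := by
  let f : ι → ℤ := fun v => ⌊dd (y v - y u) / σ⌋
  have hd : ∀ v ∈ U.erase u, σ ≤ |dd (y v - y u)| := by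
    intro v hv
    rw [mem_erase] at hv
    exact hsep v hv.2 u hu hv.1 _
  have hinj : Set.InjOn f (U.erase u : Finset ι) := by
    intro v hv w hw hvw
    by_contra hne
    rw [mem_coe, mem_erase] at hv hw
    have h1 := hsep v hv.2 w hw.2 hne (round (y v - y u) - round (y w - y u))
    have h2 : y v - y w - ((round (y v - y u) - round (y w - y u) : ℤ) : ℝ) =
        dd (y v - y u) - dd (y w - y u) := by
      unfold dd
      push_cast
      ring
    rw [h2] at h1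
    have hvw' : ⌊dd (y v - y u) / σ⌋ = ⌊dd (y w - y u) / σ⌋ := hvw
    have h3 := Int.abs_sub_lt_one_of_floor_eq_floor hvw'
    rw [← sub_div, abs_div, abs_of_pos hσ, div_lt_one hσ] at h3
    linarith
  have h1 : ∀ v ∈ U.erase u, 1 / (dd (y v - y u)) ^ 2 ≤ 5 / σ ^ 2 * (1 / ((f v : ℝ) ^ 2 + 1)) := by
    intro v hv
    have h2 := hd v hv
    have h3 : 1 ≤ |dd (y v - y u) / σ| := by
      rw [abs_div, abs_of_pos hσ, le_div_iff₀ hσ]
      linarith
    have h4 := floor_sq h3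
    have h5 : 0 < (dd (y v - y u)) ^ 2 := by
      have : 0 < |dd (y v - y u)| := lt_of_lt_of_le hσ h2
      exact sq_pos_of_pos this |>.trans_eq (sq_abs _)
    show _ ≤ 5 / σ ^ 2 * (1 / ((⌊dd (y v - y u) / σ⌋ : ℝ) ^ 2 + 1))
    rw [div_mul_div_comm, mul_one, div_le_div_iff₀ h5 (by positivity)]
    have h6 : 5 * (dd (y v - y u) / σ) ^ 2 * σ ^ 2 = 5 * (dd (y v - y u)) ^ 2 := by
      field_simp
    have h7 := mul_le_mul_of_nonneg_right h4 (sq_nonneg σ)
    linarith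
  calc ∑ v ∈ U.erase u, 1 / (dd (y v - y u)) ^ 2
      ≤ ∑ v ∈ U.erase u, 5 / σ ^ 2 * (1 / ((f v : ℝ) ^ 2 + 1)) := sum_le_sum h1
    _ = 5 / σ ^ 2 * ∑ k ∈ (U.erase u).image f, 1 / ((k : ℝ) ^ 2 + 1) := by
        rw [← mul_sum, sum_image hinj]
    _ ≤ 5 / σ ^ 2 * 5 := mul_le_mul_of_nonneg_left (sum_sq _) (by positivity)
    _ = 25 / σ ^ 2 := by ring

theorem card_fib {M : ℕ} {n : ℕ} (hn : n ≤ M) : M - n ≤ ((P M).filter fun p => sg p = n).card := by
  have h1 : (range (M - n)).image (fun i => (i + n, i)) ⊆ (P M).filter fun p => sg p = n := by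
    intro p hp
    rw [mem_image] at hp
    obtain ⟨i, hi, rfl⟩ := hp
    rw [mem_range] at hi
    rw [mem_filter]
    unfold P sg
    rw [mem_product, mem_range, mem_range]
    refine ⟨⟨?_, ?_⟩, ?_⟩ <;> simp <;> omega
  have h2 := card_le_card h1
  rw [card_image_of_injective _ (fun a b hab => (Prod.ext_iff.1 hab).2), card_range] at h2
  exact h2

/-- The large sieve inequality. -/
theorem sieve (U : Finset ι) (y : ι → ℝ) {σ : ℝ} (hσ : 0 < σ)
    (hsep : ∀ u ∈ U, ∀ v ∈ U, u ≠ v → ∀ m : ℤ, σ ≤ |y u - y v - m|) {L M : ℕ} (hL : 2 * L ≤ M)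
    (hM : 1 ≤ σ * M) :
    ∑ n ∈ Ico 1 (L + 1), ‖t U y (n : ℤ)‖ ^ 2 ≤ 16 * U.card * M := by
  have hMpos : (0 : ℝ) < M := by
    by_contra hc
    have : (M : ℝ) = 0 := le_antisymm (not_lt.1 hc) (Nat.cast_nonneg _)
    rw [this] at hM
    norm_num at hM
  -- the double sum
  have h1 : ∑ p ∈ P M, ‖t U y (sg p)‖ ^ 2 = ∑ u ∈ U, ∑ v ∈ U, K M (y v - y u) := by
    have h2 : ((∑ p ∈ P M, ‖t U y (sg p)‖ ^ 2 : ℝ) : ℂ) =
        ((∑ u ∈ U, ∑ v ∈ U, K M (y v - y u) : ℝ) : ℂ) := by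
      push_cast
      have h3 : ∀ u ∈ U, ∑ v ∈ U, (K M (y v - y u) : ℂ) =
          ∑ p ∈ P M, ∑ v ∈ U, e (sg p * (y v - y u)) := by
        intro u _
        rw [sum_comm]
        exact sum_congr rfl fun v _ => K_eq M _
      rw [sum_congr rfl h3, sum_comm]
      refine sum_congr rfl fun p _ => ?_
      rw [← Complex.ofReal_pow, ← Complex.normSq_eq_norm_sq, ← Complex.mul_conj, mul_comm]
      unfold t
      rw [map_sum, sum_mul_sum]
      refine sum_congr rfl fun u _ => sum_congr rfl fun v _ => ?_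
      rw [← e_neg, ← e_add]
      congr 1
      ring
    exact_mod_cast h2
  have h4 : ∀ u ∈ U, ∑ v ∈ U, K M (y v - y u) ≤ 8 * (M : ℝ) ^ 2 := by
    intro u hu
    rw [← add_sum_erase U _ hu, sub_self, K_zero]
    have h5 : ∑ v ∈ U.erase u, K M (y v - y u) ≤ ∑ v ∈ U.erase u, (1 / 4) * (1 / (dd (y v - y u)) ^ 2) := by
      refine sum_le_sum fun v hv => ?_
      have hv' := mem_erase.1 hv
      have h6 : σ ≤ |dd (y v - y u)| := hsep v hv'.2 u hu hv'.1 _
      have h7 := K_le (N := M) (x := y v - y u) (d := |dd (y v - y u)|) (lt_of_lt_of_le hσ h6)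
        (fun m => round_le _ m)
      rw [sq_abs] at h7
      refine h7.trans (le_of_eq ?_)
      rw [div_mul_div_comm, mul_one]
    rw [← mul_sum] at h5
    have h6 := sep_sum U y hσ hsep u hu
    have h7 : 25 / σ ^ 2 ≤ 25 * (M : ℝ) ^ 2 := by
      rw [div_le_iff₀ (by positivity)]
      have : 1 ≤ (σ * M) ^ 2 := by nlinarith
      nlinarith
    nlinarith
  have h5 : ∑ u ∈ U, ∑ v ∈ U, K M (y v - y u) ≤ U.card * (8 * (M : ℝ) ^ 2) := by
    rw [← nsmul_eq_mul, ← sum_const]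
    exact sum_le_sum h4
  -- lower bound
  have h6 : ∑ n ∈ Ico 1 (L + 1), ‖t U y (n : ℤ)‖ ^ 2 * ((M : ℝ) / 2) ≤ ∑ p ∈ P M, ‖t U y (sg p)‖ ^ 2 := by
    have h7 : ∀ n ∈ Ico 1 (L + 1), ‖t U y (n : ℤ)‖ ^ 2 * ((M : ℝ) / 2) ≤
        ∑ p ∈ (P M).filter (fun p => sg p = n), ‖t U y (sg p)‖ ^ 2 := by
      intro n hn
      rw [mem_Ico] at hn
      have h8 : ∑ p ∈ (P M).filter (fun p => sg p = n), ‖t U y (sg p)‖ ^ 2 =
          (((P M).filter fun p => sg p = n).card : ℝ) * ‖t U y (n : ℤ)‖ ^ 2 := by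
        rw [← nsmul_eq_mul, ← sum_const]
        refine sum_congr rfl fun w hw => ?_
        rw [(mem_filter.1 hw).2]
      rw [h8, mul_comm]
      refine mul_le_mul_of_nonneg_right ?_ (sq_nonneg _)
      have h9 := card_fib (M := M) (n := n) (by omega)
      have h10 : M ≤ 2 * ((P M).filter fun p => sg p = n).card := by omega
      have h11 : (M : ℝ) ≤ 2 * (((P M).filter fun p => sg p = n).card : ℝ) := by exact_mod_cast h10
      linarith
    refine (sum_le_sum h7).trans ?_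
    rw [← sum_biUnion]
    · refine sum_le_sum_of_subset_of_nonneg ?_ fun _ _ _ => sq_nonneg _
      intro p hp
      rw [mem_biUnion] at hp
      obtain ⟨n, _, hp⟩ := hp
      exact (mem_filter.1 hp).1
    · intro n _ m _ hnm
      rw [Function.onFun, disjoint_left]
      intro p hp hp'
      have h12 := (mem_filter.1 hp).2
      have h13 := (mem_filter.1 hp').2
      rw [h12] at h13
      exact hnm (by exact_mod_cast h13)
  rw [← sum_mul, h1] at h6
  have h7 := h6.trans h5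
  have h8 : (∑ n ∈ Ico 1 (L + 1), ‖t U y (n : ℤ)‖ ^ 2) * (M / 2) ≤ 16 * U.card * M * (M / 2) := by
    refine h7.trans (le_of_eq ?_)
    ring
  exact le_of_mul_le_mul_right h8 (by positivity)

end Pool.Agent.UH3.Stf
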